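import Pool.Agent.W993.MC.Stm

set_option autoImplicit false

open Filter Topology

namespace Pool.Agent.W933.MC

open Pool.Agent.W993.MC

theorem sq_one {z : ℂ} (h : z ^ 2 = 1) : z = 1 ∨ z = -1 := by
  have h1 : (z - 1) * (z + 1) = 0 := by ring_nf; rw [h]; ring
  rcases mul_eq_zero.1 h1 with h2 | h2
  · exact Or.inl (sub_eq_zero.1 h2)
  · exact Or.inr (eq_neg_of_add_eq_zero_left h2)

theorem neg_one_ne : (-1 : ℂ) ≠ 1 := by norm_num

theorem lim1 (h2 : S_ABEL) : Tendsto (S [(1, -1)]) atTop (𝓝 (-((Real.log 2 : ℝ) : ℂ))) := by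
  have h := h2 0 (-1) (by simp) neg_one_ne
  have e : (1 : ℂ) - -1 = ((2 : ℝ) : ℂ) := by norm_num
  rw [e, ← Complex.ofReal_log (by norm_num)] at h
  simpa using h

theorem lim11 (h2 : S_ABEL) :
    Tendsto (S [(1, -1), (1, 1)]) atTop (𝓝 (((Real.log 2 : ℝ) : ℂ) ^ 2 / 2)) := by
  have h := h2 1 (-1) (by simp) neg_one_ne
  have e : (1 : ℂ) - -1 = ((2 : ℝ) : ℂ) := by norm_num
  rw [e, ← Complex.ofReal_log (by norm_num)] at h
  simpa using h

theorem lim1m (h1 : S_INS) (h2 : S_ABEL) (h3 : S_P) :
    Tendsto (S [(1, -1), (1, -1)]) atTop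
      (𝓝 ((((Real.log 2 : ℝ) : ℂ) ^ 2 - (Real.pi : ℂ) ^ 2 / 6) / 2)) := by
  have h := lim1 h2
  have h4 := (h.mul h).sub h3.1
  have h5 := h4.div_const 2
  have e : ∀ M, (S [(1, -1)] M * S [(1, -1)] M - S [(2, 1)] M) / 2 = S [(1, -1), (1, -1)] M := by
    intro M
    have h6 := h1 (1, -1) [(1, -1)] M
    rw [h6]
    simp only [ins, List.map_cons, List.map_nil, List.sum_cons, List.sum_nil]
    norm_num
    ring
  simp only [e] at h5
  have e2 : (-((Real.log 2 : ℝ) : ℂ) * -((Real.log 2 : ℝ) : ℂ) - (Real.pi : ℂ) ^ 2 / 6) / 2 =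
      (((Real.log 2 : ℝ) : ℂ) ^ 2 - (Real.pi : ℂ) ^ 2 / 6) / 2 := by ring
  rw [e2] at h5
  exact h5

theorem z2 (h1 : S_INS) (h2 : S_ABEL) (h3 : S_P) (h4 : S_LOW) : S_Z2 := by
  refine ⟨le_antisymm ?_ ?_, le_antisymm ?_ ?_⟩
  · have hle : Zsp 2 1 ≤ Submodule.span ℚ {((Real.log 2 : ℝ) : ℂ)} := by
      unfold Zsp
      rw [Submodule.span_le]
      rintro v ⟨L, ⟨hne, hall, hsum, hhead⟩, hv⟩
      rcases L with _ | ⟨⟨a, z⟩, L⟩
      · exact absurd rfl hne
      have hz := hall (a, z) (by simp)
      rcases L with _ | ⟨⟨a', z'⟩, L⟩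
      · have ha : a = 1 := by simpa using hsum
        subst ha
        rcases sq_one hz.2 with h | h
        · exact absurd (by simpa using h) hhead
        · subst h
          have hv2 : v = -((Real.log 2 : ℝ) : ℂ) := tendsto_nhds_unique hv (lim1 h2)
          rw [hv2]
          exact Submodule.neg_mem _ (Submodule.mem_span_singleton_self _)
      · have hz' := hall (a', z') (by simp)
        simp only [List.map_cons, List.sum_cons] at hsum
        have h5 := hz.1
        have h6 := hz'.1
        simp only at h5 h6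
        omega
    refine (Submodule.rank_mono hle).trans ((rank_span_le _).trans ?_)
    rw [Cardinal.mk_singleton]
  · have h := h4 1 le_rfl
    simpa using h
  · have hle : Zsp 2 2 ≤ Submodule.span ℚ {(Real.pi : ℂ) ^ 2, ((Real.log 2 : ℝ) : ℂ) ^ 2} := by
      have m1 : (Real.pi : ℂ) ^ 2 ∈
          Submodule.span ℚ {(Real.pi : ℂ) ^ 2, ((Real.log 2 : ℝ) : ℂ) ^ 2} :=
        Submodule.subset_span (Or.inl rfl)
      have m2 : ((Real.log 2 : ℝ) : ℂ) ^ 2 ∈
          Submodule.span ℚ {(Real.pi : ℂ) ^ 2, ((Real.log 2 : ℝ) : ℂ) ^ 2} :=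
        Submodule.subset_span (Or.inr rfl)
      unfold Zsp
      rw [Submodule.span_le]
      rintro v ⟨L, ⟨hne, hall, hsum, hhead⟩, hv⟩
      rcases L with _ | ⟨⟨a, z⟩, L⟩
      · exact absurd rfl hne
      have hz := hall (a, z) (by simp)
      rcases L with _ | ⟨⟨a', z'⟩, L⟩
      · have ha : a = 2 := by simpa using hsum
        subst ha
        rcases sq_one hz.2 with h | h
        · subst h
          have hv2 : v = (Real.pi : ℂ) ^ 2 / 6 := tendsto_nhds_unique hv h3.1
          have e : (Real.pi : ℂ) ^ 2 / 6 = (1 / 6 : ℚ) • (Real.pi : ℂ) ^ 2 := by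
            rw [Algebra.smul_def]; push_cast; simp; ring
          rw [hv2, e]
          exact Submodule.smul_mem _ _ m1
        · subst h
          have hv2 : v = -(Real.pi : ℂ) ^ 2 / 12 := tendsto_nhds_unique hv h3.2
          have e : -(Real.pi : ℂ) ^ 2 / 12 = (-1 / 12 : ℚ) • (Real.pi : ℂ) ^ 2 := by
            rw [Algebra.smul_def]; push_cast; simp; ring
          rw [hv2, e]
          exact Submodule.smul_mem _ _ m1
      · have hz' := hall (a', z') (by simp)
        rcases L with _ | ⟨⟨a'', z''⟩, L⟩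
        · simp only [List.map_cons, List.sum_cons, List.map_nil, List.sum_nil] at hsum
          have h5 := hz.1
          have h6 := hz'.1
          simp only at h5 h6
          have ha : a = 1 := by omega
          have ha' : a' = 1 := by omega
          subst ha
          subst ha'
          rcases sq_one hz.2 with h | h
          · exact absurd (by simpa using h) hhead
          · subst h
            rcases sq_one hz'.2 with h | h
            · subst h
              have hv2 : v = ((Real.log 2 : ℝ) : ℂ) ^ 2 / 2 := tendsto_nhds_unique hv (lim11 h2)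
              have e : ((Real.log 2 : ℝ) : ℂ) ^ 2 / 2 = (1 / 2 : ℚ) • ((Real.log 2 : ℝ) : ℂ) ^ 2 := by
                rw [Algebra.smul_def]; push_cast; simp; ring
              rw [hv2, e]
              exact Submodule.smul_mem _ _ m2
            · subst h
              have hv2 := tendsto_nhds_unique hv (lim1m h1 h2 h3)
              have e : (((Real.log 2 : ℝ) : ℂ) ^ 2 - (Real.pi : ℂ) ^ 2 / 6) / 2 =
                  (1 / 2 : ℚ) • ((Real.log 2 : ℝ) : ℂ) ^ 2 - (1 / 12 : ℚ) • (Real.pi : ℂ) ^ 2 := by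
                rw [Algebra.smul_def, Algebra.smul_def]; push_cast; simp; ring
              rw [hv2, e]
              exact Submodule.sub_mem _ (Submodule.smul_mem _ _ m2) (Submodule.smul_mem _ _ m1)
        · have hz'' := hall (a'', z'') (by simp)
          simp only [List.map_cons, List.sum_cons] at hsum
          have h5 := hz.1
          have h6 := hz'.1
          have h7 := hz''.1
          simp only at h5 h6 h7
          omega
    refine (Submodule.rank_mono hle).trans ((rank_span_le _).trans ?_)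
    refine (Cardinal.mk_insert_le).trans ?_
    rw [Cardinal.mk_singleton]
    norm_num
  · have h := h4 2 (by norm_num)
    simpa using h

end Pool.Agent.W933.MC
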